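import Pool.Agent.H825R2.CD.Defs

/-! Constant distance code pairs for alphabets of `6` and `7` letters (`Q = q - 1 = 5, 6`):
statements of the tasks. The combinatorial statements of `Pool.Agent.H825R2.CD.Defs` are reused. -/

namespace R745CDX

open Finset H825CD

/-- hypotheses on the pure letters at one coordinate (`k`, `l` numbers of pure letters) -/
structure PureX (Q : ℕ) (m : ℝ) (k l : ℕ) (a b z w : ℝ) : Prop where
  hQ : Q = 5 ∨ Q = 6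
  hm0 : 0 ≤ m
  hm : (qb Q : ℝ) * m ≤ 1
  hkl : k + l ≤ Q
  ha0 : 0 ≤ a
  hb0 : 0 ≤ b
  ha1 : a ≤ 1
  hb1 : b ≤ 1
  hz : 0 ≤ z
  hw : 0 ≤ w
  ha : a ≤ k * z
  hb : b ≤ l * w
  h1 : z * (1 - b + w) ≤ m
  h2 : w * (1 - a + z) ≤ m

/-- there is a dominating common letter -/
def X_dom : Prop := ∀ (N : ℕ) (C : Finset (Fin N)) (α β : Fin N → ℝ) (Q : ℕ) (m : ℝ) (k l : ℕ)
  (a b z w : ℝ),
  PureX Q m k l a b z w → (∀ x ∈ C, 0 ≤ α x) → (∀ x ∈ C, 0 ≤ β x) →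
  ∑ x ∈ C, α x + a = 1 → ∑ x ∈ C, β x + b = 1 →
  (∀ P ⊆ C, (∑ x ∈ P, α x + z) * (∑ x ∈ C \ P, β x + w) ≤ m) →
  C.card + k + l ≤ Q + 1 → (C.card = 1 → 1 ≤ k ∧ 1 ≤ l) →
  ∃ t ∈ C, 1 / 2 ≤ α t ∧ 1 / 2 ≤ β t

/-- a coordinate with at least two common letters is not critical -/
def X_nc : Prop := ∀ (N : ℕ) (C : Finset (Fin N)) (α β : Fin N → ℝ) (Q : ℕ) (m : ℝ) (k l : ℕ)
  (a b z w : ℝ),
  PureX Q m k l a b z w → (∀ x ∈ C, 0 ≤ α x) → (∀ x ∈ C, 0 ≤ β x) →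
  ∑ x ∈ C, α x + a = 1 → ∑ x ∈ C, β x + b = 1 →
  (∀ P ⊆ C, (∑ x ∈ P, α x + z) * (∑ x ∈ C \ P, β x + w) ≤ m) →
  2 ≤ C.card → C.card + k + l ≤ Q + 1 → (∃ t ∈ C, 1 / 2 ≤ α t ∧ 1 / 2 ≤ β t) →
  1 - ∑ x ∈ C, α x * β x ≤ Q * m

/-- one coordinate, from the real lemmas -/
def X_coord : Prop := ∀ (ι : Type) [Fintype ι] [DecidableEq ι] (Q : ℕ) (S : Finset ι) (δ M : ℕ)
  (A B : Finset (ι → Fin (Q + 1))), (Q = 5 ∨ Q = 6) → Ctx S δ M A B → ∀ j ∈ S,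
  ((∀ y : Fin (Q + 1), na A j y ≠ 0 ∧ na B j y ≠ 0) →
    ∃ t ∈ com A B j, 2 * na A j t ≤ A.card ∧ 2 * na B j t ≤ B.card) ∧
  (Q * M + ∑ x : Fin (Q + 1), cnt A j {x} * cnt B j {x} < A.card * B.card →
    (com A B j).card = 1)

/-- words with `a j = x`, `a i ∈ P`, both coordinates erased -/
def e01 {ι : Type} [Fintype ι] [DecidableEq ι] {Q : ℕ} (A : Finset (ι → Fin (Q + 1))) (j i : ι)
    (x : Fin (Q + 1)) (P : Finset (Fin (Q + 1))) : ℕ :=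
  ((A.filter (fun a => a j = x ∧ a i ∈ P)).image (fun a => er i (er j a))).card

/-- words with `a j ≠ x`, `a i ∈ P`, both coordinates erased -/
def e11 {ι : Type} [Fintype ι] [DecidableEq ι] {Q : ℕ} (A : Finset (ι → Fin (Q + 1))) (j i : ι)
    (x : Fin (Q + 1)) (P : Finset (Fin (Q + 1))) : ℕ :=
  ((A.filter (fun a => a j ≠ x ∧ a i ∈ P)).image (fun a => er i (er j a))).card

/-- closure: in a maximum pair a pure letter may be replaced by any other pure letter -/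
def X_clo : Prop := ∀ (ι : Type) [Fintype ι] [DecidableEq ι] (Q : ℕ) (S : Finset ι) (δ M : ℕ)
  (A B : Finset (ι → Fin (Q + 1))), Ctx S δ M A B → ∀ j ∈ S, ∀ a ∈ A, a j ∈ pur A B j →
  ∀ u ∈ pur A B j, Function.update a j u ∈ A

/-- one coordinate: exact counts -/
def X_one : Prop := ∀ (ι : Type) [Fintype ι] [DecidableEq ι] (Q : ℕ) (S : Finset ι) (δ M : ℕ)
  (A B : Finset (ι → Fin (Q + 1))), Ctx S δ M A B → ∀ i ∈ S, ∀ y ∈ com A B i,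
  nz A i y = cnt A i (com A B i \ {y}) + pcnt A i (pur A B i) ∧
  na A i y = cnt A i (com A B i \ {y}) + (pur A B i).card * pcnt A i (pur A B i) ∧
  nz A i y * (B.card - na B i y + pcnt B i (pur B A i)) ≤ M

/-- two coordinates: exact counts -/
def X_two : Prop := ∀ (ι : Type) [Fintype ι] [DecidableEq ι] (Q : ℕ) (S : Finset ι) (δ M : ℕ)
  (A B : Finset (ι → Fin (Q + 1))), Ctx S δ M A B → ∀ j ∈ S, ∀ i ∈ S, i ≠ j →
  ∀ x y : Fin (Q + 1), com A B j = {x} → y ∈ com A B i →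
  A.card ≤ p00 A j i x y + na A j x + e01 A j i x (com A B i \ {y})
    + (pur A B i).card * e01 A j i x (pur A B i) ∧
  nz A j x ≤ z10 A j i x y + e11 A j i x (com A B i \ {y})
    + (pur A B i).card * e11 A j i x (pur A B i) ∧
  e01 A j i x (com A B i \ {y}) + (pur A B j).card * e11 A j i x (com A B i \ {y})
    ≤ cnt A i (com A B i \ {y}) ∧
  e01 A j i x (pur A B i) + (pur A B j).card * e11 A j i x (pur A B i)
    ≤ pcnt A i (pur A B i) ∧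
  z01 A j i x y = e01 A j i x (com A B i \ {y}) + e01 A j i x (pur A B i) ∧
  z11 A j i x y = e11 A j i x (com A B i \ {y}) + e11 A j i x (pur A B i)

/-- pairs two coordinates down, more cases -/
def X_s2a : Prop := ∀ (ι : Type) [Fintype ι] [DecidableEq ι] (Q : ℕ) (S : Finset ι) (δ M : ℕ)
  (A B : Finset (ι → Fin (Q + 1))), Ctx S δ M A B → ∀ j ∈ S, ∀ i ∈ S, i ≠ j →
  ∀ x y : Fin (Q + 1), com A B j = {x} → y ∈ com A B i → p00 A j i x y ≠ 0 →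
  qb Q * ((z10 A j i x y + e11 A j i x (pur A B i)) * (z01 B j i x y + z11 B j i x y)) ≤ M

def X_s2b : Prop := ∀ (ι : Type) [Fintype ι] [DecidableEq ι] (Q : ℕ) (S : Finset ι) (δ M : ℕ)
  (A B : Finset (ι → Fin (Q + 1))), Ctx S δ M A B → ∀ j ∈ S, ∀ i ∈ S, i ≠ j →
  ∀ x y : Fin (Q + 1), com A B j = {x} → y ∈ com A B i →
  qb Q * ((z10 A j i x y + z11 A j i x y)
    * (e01 B j i x (pur B A i) + e11 B j i x (pur B A i))) ≤ M

def X_s1 : Prop := ∀ (ι : Type) [Fintype ι] [DecidableEq ι] (Q : ℕ) (S : Finset ι) (δ M : ℕ)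
  (A B : Finset (ι → Fin (Q + 1))), Ctx S δ M A B → ∀ j ∈ S, ∀ i ∈ S, i ≠ j →
  ∀ x y : Fin (Q + 1), com A B j = {x} → y ∈ com A B i →
  qb Q * (z11 A j i x y * (p00 B j i x y + z10 B j i x y)) ≤ M

/-- normalised data at the critical coordinate `j` and the partner coordinate `i`.
`s`, `zP` (`t`, `wP`): fractions of words of `A` (`B`) with a common letter `≠ y`, of erased words with
a pure letter, at `i`. `Z10, U01, U11, P01, P11` two-coordinate counts of `A`,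
`W10, V01, V11, R01, R11` those of `B`. -/
structure FinX (Q : ℕ) (m : ℝ) (k l K L : ℕ) (aj bj zj wj ai bi s zP t wP
    Z10 U01 U11 P01 P11 W10 V01 V11 R01 R11 p r : ℝ) : Prop where
  hm : (qb Q : ℝ) * m ≤ 1
  hm0 : 0 < m
  hk : 1 ≤ k
  hl : 1 ≤ l
  hkl : k + l ≤ Q
  hKL : K + L + 1 ≤ Q ∨ (K + L ≤ Q ∧ s = 0 ∧ t = 0)
  haj0 : 0 < aj
  hbj0 : 0 < bj
  hai0 : 0 < ai
  hbi0 : 0 < bi
  haj2 : aj ≤ 1 / 2
  hbj2 : bj ≤ 1 / 2
  hai2 : ai ≤ 1 / 2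
  hbi2 : bi ≤ 1 / 2
  haj : aj = k * zj
  hbj : bj = l * wj
  hJ1 : zj * (1 - bj + wj) ≤ m
  hJ2 : wj * (1 - aj + zj) ≤ m
  hJ3 : Q * m < aj + bj - aj * bj
  hs : 0 ≤ s
  hzP : 0 ≤ zP
  ht : 0 ≤ t
  hwP : 0 ≤ wP
  hai : ai = s + K * zP
  hbi : bi = t + L * wP
  hI1 : (s + zP) * (1 - bi + wP) ≤ m
  hI2 : (t + wP) * (1 - ai + zP) ≤ m
  hZ10 : 0 ≤ Z10
  hU01 : 0 ≤ U01
  hU11 : 0 ≤ U11
  hP01 : 0 ≤ P01
  hP11 : 0 ≤ P11
  hW10 : 0 ≤ W10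
  hV01 : 0 ≤ V01
  hV11 : 0 ≤ V11
  hR01 : 0 ≤ R01
  hR11 : 0 ≤ R11
  c1 : U01 + k * U11 ≤ s
  c2 : P01 + k * P11 ≤ zP
  c3 : V01 + l * V11 ≤ t
  c4 : R01 + l * R11 ≤ wP
  r1 : zj ≤ Z10 + U11 + K * P11
  r2 : wj ≤ W10 + V11 + L * R11
  hp : 1 - aj - ai ≤ p
  hr : 1 - bj - bi ≤ r
  hp2 : 1 - aj - U01 - K * P01 ≤ p
  hr2 : 1 - bj - V01 - L * R01 ≤ r
  q1 : 0 < p → (qb Q : ℝ) * ((Z10 + P11) * (V01 + R01 + (V11 + R11))) ≤ m
  q2 : 0 < r → (qb Q : ℝ) * ((W10 + R11) * (U01 + P01 + (U11 + P11))) ≤ m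
  q3 : (qb Q : ℝ) * ((Z10 + (U11 + P11)) * (R01 + R11)) ≤ m
  q4 : (qb Q : ℝ) * ((W10 + (V11 + R11)) * (P01 + P11)) ≤ m
  q5 : (qb Q : ℝ) * ((U11 + P11) * (r + W10)) ≤ m
  q6 : (qb Q : ℝ) * ((V11 + R11) * (p + Z10)) ≤ m

/-- final contradiction, no twins -/
def X_final (Q : ℕ) : Prop := ∀ (m : ℝ) (k l K L : ℕ) (aj bj zj wj ai bi s zP t wP
    Z10 U01 U11 P01 P11 W10 V01 V11 R01 R11 p r : ℝ),
  FinX Q m k l K L aj bj zj wj ai bi s zP t wP Z10 U01 U11 P01 P11 W10 V01 V11 R01 R11 p r →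
  p * (r + 2 * Q * (W10 + (V01 + R01)) + Q ^ 2 * (V11 + R11)) ≤ 1 →
  r * (p + 2 * Q * (Z10 + (U01 + P01)) + Q ^ 2 * (U11 + P11)) ≤ 1 → False

/-- final contradiction, `A` twin -/
def X_twin (Q : ℕ) : Prop := ∀ (m : ℝ) (k l K L : ℕ) (aj bj zj wj ai bi s zP t wP
    U11 P11 W10 V01 V11 R01 R11 p r : ℝ),
  FinX Q m k l K L aj bj zj wj ai bi s zP t wP 0 0 U11 0 P11 W10 V01 V11 R01 R11 p r → False

/-- no context exists -/
def X_false : Prop := ∀ (ι : Type) [Fintype ι] [DecidableEq ι] (Q : ℕ) (S : Finset ι) (δ M : ℕ)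
  (A B : Finset (ι → Fin (Q + 1))), (Q = 5 ∨ Q = 6) → ¬ Ctx S δ M A B

/-- the theorem -/
def X_main : Prop := ∀ (ι : Type) [Fintype ι] [DecidableEq ι] (Q : ℕ), (Q = 5 ∨ Q = 6) →
  ∀ (n : ℕ) (S : Finset ι), S.card = n → ∀ (δ : ℕ) (A B : Finset (ι → Fin (Q + 1))),
  Sup S A → Sup S B → (∀ a ∈ A, ∀ b ∈ B, hammingDist a b = δ) → A.card * B.card ≤ FF Q n δ

/-! The tasks:
* XDOM : `theorem tX_dom : X_dom`
* XNC : `theorem tX_nc : X_nc`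
* XCO : `theorem tX_coord (hs : S_symm) (h1 : S_split) (h2 : S_struct) (h3 : X_dom) (h4 : X_nc)
    (h5 : S_FF) : X_coord`
* XCLO : `theorem tX_clo : X_clo`
* XONE : `theorem tX_one (h1 : S_split) (h2 : S_struct) (h3 : X_clo) : X_one`
* XTWO : `theorem tX_two (h : S_dist) (h3 : X_clo) : X_two`
* XS2A : `theorem tX_s2a (h : S_dist) : X_s2a`
* XS2B : `theorem tX_s2b (h : S_dist) : X_s2b`
* XS1 : `theorem tX_s1 (h : S_dist) : X_s1`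
* XF5 : `theorem tX_final5 : X_final 5`
* XF6 : `theorem tX_final6 : X_final 6`
* XTW : `theorem tX_twin (Q : ℕ) (h : Q = 5 ∨ Q = 6) : X_twin Q`
* XFAL : `theorem tX_false (hsy : S_symm) (hst : S_struct) (hcr : S_crit) (hfi : S_fib)
    (hs1 : S_split1) (hV : S_V) (hpa : S_partner) (hFF : S_FF) (hco : X_coord)
    (hone : X_one) (htwo : X_two) (h2a : X_s2a) (h2b : X_s2b) (hs : X_s1)
    (hf : ∀ Q : ℕ, (Q = 5 ∨ Q = 6) → X_final Q) (ht : ∀ Q : ℕ, (Q = 5 ∨ Q = 6) → X_twin Q) :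
    X_false`
* XMAIN : `theorem tX_main (h1 : X_false) (h2 : S_FF) : X_main`
-/

end R745CDX
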