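import Pool.Agent.H825R2.CD.Top
import Pool.Agent.R745.CDX.Defs
import Pool.Agent.R339.CDX.XDOM
import Pool.Agent.R670.CDX.XNC
import Pool.Agent.R670.CDX.XCO
import Pool.Agent.R891.CDX.XCLO
import Pool.Agent.R780.CDX.XONE
import Pool.Agent.R469.CDX.XTWO
import Pool.Agent.R339.CDX.XS2A
import Pool.Agent.R746.CDX.XS2B
import Pool.Agent.R835.CDX.XS1
import Pool.Agent.R567.CDX.XF5
import Pool.Agent.R392.CDX.XF6
import Pool.Agent.R626.CDX.XTW
import Pool.Agent.R153.CDX.XFAL
import Pool.Agent.R97.CDX.XMAIN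

namespace R745CDX
open H825CD

theorem allX_false : X_false :=
  tX_false t_symm (t_struct t_dist) t_crit (t_fib t_dist)
    (t_split1 t_dist (t_split t_dist) (t_struct t_dist)) (t_V t_dist) t_partner t_FF
    (tX_coord t_symm (t_split t_dist) (t_struct t_dist) tX_dom tX_nc t_FF)
    (tX_one (t_split t_dist) (t_struct t_dist) tX_clo) (tX_two t_dist tX_clo)
    (tX_s2a t_dist) (tX_s2b t_dist) (tX_s1 t_dist)
    (fun Q h => by
      rcases h with rfl | rfl
      · exact tX_final5
      · exact tX_final6)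
    tX_twin

theorem allX_main : X_main := tX_main allX_false t_FF

end R745CDX
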